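import Pool.Agent.N646.RG.Stm

/-!
Project RG (helper646), part WB2: moments of the number of rough values in windows.
-/

set_option autoImplicit false

namespace Pool.Agent.N316.RGWB2

open Finset Filter Topology
open Pool.Agent.N646.RO (Rgh)
open Pool.Agent.N646.RG

theorem rgh_half {δ : ℝ} (hδ : 0 < δ) {N : ℕ} (hN : 2 ≤ N) {m : ℤ} (h : Rgh δ N m) :
    Rgh δ (N / 2) m := by
  intro p hp hl
  refine h p hp (hl.trans ?_)
  refine mul_le_mul_of_nonneg_left ?_ hδ.le
  exact Real.log_le_log (by exact_mod_cast (by omega : 0 < N / 2))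
    (by exact_mod_cast (by omega : N / 2 ≤ N))

theorem log_half {N : ℕ} (hN : 1000 ≤ N) : Real.log N / 2 ≤ Real.log ((N / 2 : ℕ) : ℝ) := by
  have h1 : (0 : ℝ) < ((N / 2 : ℕ) : ℝ) := by exact_mod_cast (by omega : 0 < N / 2)
  have h2 : (N : ℝ) ≤ ((N / 2 : ℕ) : ℝ) ^ 2 := by
    have h3 : N ≤ (N / 2) ^ 2 := by
      have h4 : N ≤ 2 * (N / 2) + 1 := by omega
      have h5 : 500 ≤ N / 2 := by omega
      nlinarith
    exact_mod_cast h3
  have h3 := Real.log_le_log (by exact_mod_cast (by omega : 0 < N)) h2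
  rw [Real.log_pow] at h3
  push_cast at h3 ⊢
  linarith

theorem ev_range {N : ℕ} (hN : 1000 ≤ N) {f : ℤ × ℤ} (hf : Afm N f) {n : ℕ} (hn : n ∈ IN N) :
    ((N / 36 : ℕ) : ℤ) ≤ ev f n ∧ ev f n ≤ 2 * N := by
  obtain ⟨h1, h2, h3⟩ := hf
  unfold IN at hn
  rw [mem_Icc] at hn
  obtain ⟨hn1, hn2⟩ := hn
  have hab := abs_le.1 (le_refl |f.2|)
  unfold ev
  have hNr : (1000 : ℝ) ≤ N := by exact_mod_cast hN
  rcases h1 with h1 | h1
  · have h4 := h3 ((N : ℝ) / 16) le_rfl (by linarith)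
    rw [h1] at h4 ⊢
    push_cast at h4
    have h5 : -(N : ℝ) ≤ 80 * (f.2 : ℝ) := by linarith
    have h6 : -(N : ℤ) ≤ 80 * f.2 := by exact_mod_cast h5
    constructor <;> omega
  · have h4 := h3 ((N : ℝ) / 2) (by linarith) le_rfl
    rw [h1] at h4 ⊢
    push_cast at h4
    have h5 : 11 * (N : ℝ) ≤ 20 * (f.2 : ℝ) := by linarith
    have h6 : 11 * (N : ℤ) ≤ 20 * f.2 := by exact_mod_cast h5
    constructor <;> omega

theorem ev_inj {N : ℕ} {f : ℤ × ℤ} (hf : Afm N f) {n n' : ℕ} (h : ev f n = ev f n') : n = n' := by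
  unfold ev at h
  rcases hf.1 with h1 | h1 <;> rw [h1] at h <;> omega

theorem main (h : Pool.Agent.N646.RO.S_WB) : Pool.Agent.N646.RG.S_WB2 := by
  classical
  intro δ lam M r hδ hlam hM
  obtain ⟨C, hC, hev⟩ := h δ lam M r hδ hlam hM
  rw [eventually_atTop] at hev
  obtain ⟨N0, hN0⟩ := hev
  refine ⟨C + 2 ^ r * C, by positivity, ?_⟩
  rw [eventually_atTop]
  refine ⟨2 * N0 + 1000, fun N hN T hT hMT f hf => ?_⟩
  have hL : 0 < Real.log N := Real.log_pos (by exact_mod_cast (by omega : 1 < N))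
  have hL2 : Real.log ((N / 2 : ℕ) : ℝ) ≤ Real.log N :=
    Real.log_le_log (by exact_mod_cast (by omega : 0 < N / 2))
      (by exact_mod_cast (by omega : N / 2 ≤ N))
  have hL3 := log_half (N := N) (by omega)
  have h1 := hN0 N (by omega) T hT (by omega)
  have h2 := hN0 (N / 2) (by omega) T ((mul_le_mul_of_nonneg_left hL2 hlam.le).trans hT)
    (by omega)
  set w : ℕ → ℕ → ℝ := fun N' m =>
    (((range T).filter (fun t : ℕ => Rgh δ N' (m + M * t))).card : ℝ) ^ r with hw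
  have hw0 : ∀ N' m, 0 ≤ w N' m := fun N' m => by positivity
  have hww : ∀ m, w N m ≤ w (N / 2) m := by
    intro m
    refine pow_le_pow_left₀ (by positivity) ?_ r
    have h3 : ((range T).filter (fun t : ℕ => Rgh δ N (m + M * t))) ⊆
        ((range T).filter (fun t : ℕ => Rgh δ (N / 2) (m + M * t))) := by
      intro t ht
      rw [mem_filter] at ht ⊢
      exact ⟨ht.1, rgh_half hδ (by omega) ht.2⟩
    exact_mod_cast card_le_card h3
  have e1 : ∀ n ∈ IN N, (((range T).filter (fun t : ℕ =>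
      Rgh δ N (ev (sh f (M * t)) n))).card : ℝ) ^ r = w N (ev f n).toNat := by
    intro n hn
    have h3 := (ev_range (by omega) hf hn).1
    have h4 : (((ev f n).toNat : ℕ) : ℤ) = ev f n := Int.toNat_of_nonneg (by omega)
    have h5 : ∀ t : ℕ, ev (sh f (M * t)) n = (((ev f n).toNat : ℕ) : ℤ) + M * t := by
      intro t
      rw [h4]
      unfold ev sh
      push_cast
      ring
    simp only [hw, h5]
  rw [Finset.sum_congr rfl e1]
  have e2 : ∑ n ∈ IN N, w N (ev f n).toNat =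
      ∑ m ∈ (IN N).image (fun n => (ev f n).toNat), w N m := by
    rw [Finset.sum_image]
    intro n hn n' hn' he
    have h3 := (ev_range (by omega) hf hn).1
    have h4 := (ev_range (by omega) hf hn').1
    simp only at he
    exact ev_inj hf (by omega)
  rw [e2]
  have e3 : (IN N).image (fun n => (ev f n).toNat) ⊆
      Icc (N / 18) (2 * N) ∪ Icc (N / 2 / 18) (2 * (N / 2)) := by
    intro m hm
    obtain ⟨n, hn, rfl⟩ := mem_image.1 hm
    obtain ⟨h3, h4⟩ := ev_range (by omega) hf hn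
    rw [mem_union, mem_Icc, mem_Icc]
    omega
  have e4 : ∑ m ∈ (IN N).image (fun n => (ev f n).toNat), w N m ≤
      ∑ m ∈ Icc (N / 18) (2 * N), w N m + ∑ m ∈ Icc (N / 2 / 18) (2 * (N / 2)), w (N / 2) m := by
    refine (sum_le_sum_of_subset_of_nonneg e3 fun m _ _ => hw0 N m).trans ?_
    have h3 := Finset.sum_union_inter (s₁ := Icc (N / 18) (2 * N))
      (s₂ := Icc (N / 2 / 18) (2 * (N / 2))) (f := w N)
    have h4 : 0 ≤ ∑ m ∈ Icc (N / 18) (2 * N) ∩ Icc (N / 2 / 18) (2 * (N / 2)), w N m :=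
      Finset.sum_nonneg fun m _ => hw0 N m
    have h5 : ∑ m ∈ Icc (N / 2 / 18) (2 * (N / 2)), w N m ≤
      ∑ m ∈ Icc (N / 2 / 18) (2 * (N / 2)), w (N / 2) m := sum_le_sum fun m _ => hww m
    linarith
  refine e4.trans ?_
  have e5 : C * ((N / 2 : ℕ) : ℝ) * ((T : ℝ) / Real.log ((N / 2 : ℕ) : ℝ)) ^ r ≤
      C * N * (2 ^ r * ((T : ℝ) / Real.log N) ^ r) := by
    rw [← mul_pow]
    refine mul_le_mul ?_ (pow_le_pow_left₀ (by positivity) ?_ r) (by positivity) (by positivity)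
    · refine mul_le_mul_of_nonneg_left ?_ hC.le
      exact_mod_cast (by omega : N / 2 ≤ N)
    · rw [div_le_iff₀ (by linarith)]
      have h6 : (2 : ℝ) * (T / Real.log N) * Real.log ((N / 2 : ℕ) : ℝ) ≥
          2 * (T / Real.log N) * (Real.log N / 2) :=
        mul_le_mul_of_nonneg_left hL3 (by positivity)
      have h7 : (2 : ℝ) * (T / Real.log N) * (Real.log N / 2) = T := by
        field_simp
      linarith
  have e6 : (C + 2 ^ r * C) * N * ((T : ℝ) / Real.log N) ^ r =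
      C * N * ((T : ℝ) / Real.log N) ^ r + C * N * (2 ^ r * ((T : ℝ) / Real.log N) ^ r) := by
    ring
  rw [e6]
  exact add_le_add h1 (h2.trans e5)

end Pool.Agent.N316.RGWB2
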